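import Pool.Agent.Helper41.LD3.Defs

/-!
# Project LD3, block EVB1: the numerical requirements hold on all large levels
-/

set_option autoImplicit false

namespace Pool.Agent.Helper36.LD3

open Filter Topology

theorem ev_num {κ : ℕ} (hκ : 1 ≤ κ) (R DF Cb G : ℕ) : ∀ᶠ K : ℕ in atTop, 2 ≤ K ∧ Cb ≤ K ∧ DF * (3 * (R * K)) < K ^ (2 * κ + 1) ∧
    (R * K) ^ 2 ≤ K ^ (2 * κ + 1) ∧ 8192 * G * K * K ^ (2 * κ + 1) ≤ 2 ^ K ∧ 12 * K ≤ K ^ (2 * κ + 1) := by
  have h1 := tendsto_pow_const_div_const_pow_of_one_lt (2 * κ + 2) (show (1 : ℝ) < 2 by norm_num)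
  have h2 : ∀ᶠ K : ℕ in atTop, ((K : ℝ) ^ (2 * κ + 2)) / 2 ^ K < 1 / (8192 * G + 1) := by
    have h3 : (0 : ℝ) < 1 / (8192 * G + 1) := by positivity
    exact h1.eventually_lt_const h3
  filter_upwards [h2, eventually_ge_atTop 12, eventually_ge_atTop Cb, eventually_ge_atTop (3 * DF * R + 1),
    eventually_ge_atTop (R ^ 2)] with K hK h12 hCb hDF hR
  have hp : K ^ 3 ≤ K ^ (2 * κ + 1) := Nat.pow_le_pow_right (by omega) (by omega)
  have h3 : K ^ 3 = K * K * K := by ring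
  have hK1 : 1 ≤ K := by omega
  have hKK : K ≤ K * K := Nat.le_mul_of_pos_left K (by omega)
  refine ⟨by omega, hCb, ?_, ?_, ?_, ?_⟩
  · refine lt_of_lt_of_le ?_ hp
    rw [h3]
    calc DF * (3 * (R * K)) = (3 * DF * R) * K := by ring
      _ < K * K := Nat.mul_lt_mul_of_pos_right (by omega) (by omega)
      _ ≤ K * K * K := Nat.le_mul_of_pos_right _ (by omega)
  · refine le_trans ?_ hp
    calc (R * K) ^ 2 = R ^ 2 * K ^ 2 := by ring
      _ ≤ K * K ^ 2 := Nat.mul_le_mul_right _ hR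
      _ = K ^ 3 := by ring
  · have h4 : ((8192 * G * K * K ^ (2 * κ + 1) : ℕ) : ℝ) ≤ ((2 ^ K : ℕ) : ℝ) := by
      push_cast
      rw [div_lt_div_iff₀ (by positivity) (by positivity), one_mul] at hK
      calc (8192 : ℝ) * G * K * K ^ (2 * κ + 1) = K ^ (2 * κ + 2) * (8192 * G) := by ring
        _ ≤ K ^ (2 * κ + 2) * (8192 * G + 1) := by
            refine mul_le_mul_of_nonneg_left (by linarith) (by positivity)
        _ ≤ 2 ^ K := hK.le
    exact_mod_cast h4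
  · refine le_trans ?_ hp
    rw [h3]
    calc 12 * K ≤ K * K := Nat.mul_le_mul_right _ h12
      _ ≤ K * K * K := Nat.le_mul_of_pos_right _ (by omega)

end Pool.Agent.Helper36.LD3
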