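import Pool.Agent.Helper41.LD3.Defs
import Pool.Agent.Helper36.LD2.T

/-!
# Project LD3, block T3: one more level of Haar functions, linear form
-/

set_option autoImplicit false

namespace Pool.Agent.Helper36.LD3

open Set MeasureTheory
open Pool.Agent.Helper41.LD (av var ind haar idx)
open Pool.Agent.Helper41.LD2 (A M W Pot NB Wd EqA)
open Pool.Agent.Helper80.LD.T (cosh_add_le cosh_le_of)
open Pool.Agent.Helper36.LD2 (cn hh M_tail sum_cn hh_le_cn W_nonneg_aux W_le_aux)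

variable {U : ℕ → ℝ → ℝ} {β : ℝ}

theorem trans3 (hβ : 1 < β) {n m r r' K : ℕ} (hK : 1 ≤ K) {a ℓ : ℝ} (hw : Wd U β n m a ℓ) {lam lam' : ℝ} (h0 : 0 ≤ lam') (h1 : lam' ≤ lam)
    (h2 : lam * (n * (1 / 2) ^ K + 2 * (β / (β - 1))) ≤ 1 / 2) (h3 : 4 * lam' ^ 2 * (r' : ℝ) ^ 2 ≤ 1) :
    Pot U n r' (K + 1) lam' a ℓ ≤ 6 * Pot U n r K lam a ℓ + 4 := by
  have _ := hK
  have hℓ : 0 < ℓ := hw.pos
  have hU := hw.meas
  have hlam : 0 ≤ lam := h0.trans h1
  set C : ℝ := β / (β - 1) with hC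
  have hC0 : 0 ≤ C := div_nonneg (by linarith) (by linarith)
  -- the martingale and the Haar sums
  have hMH : ∀ k i, |M U k i a ℓ - hh U n k i a ℓ| ≤ C := by
    intro k i
    have h4 := M_tail hβ hw k i
    rw [← hC] at h4
    refine h4.trans ?_
    have h5 : (1 / 2 : ℝ) ^ k ≤ 1 := pow_le_one₀ (by norm_num) (by norm_num)
    calc (1 / 2 : ℝ) ^ k * C ≤ 1 * C := mul_le_mul_of_nonneg_right h5 hC0
      _ = C := one_mul C
  -- the old levels
  set S : ℝ := ∑ p ∈ idx K, Real.cosh (lam * M U p.1 p.2 a ℓ) with hS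
  have hSP : S ≤ Pot U n r K lam a ℓ := by
    refine Finset.sum_le_sum fun p _ => ?_
    have h4 : 0 ≤ 4 * lam ^ 2 * W U n r p.1 p.2 a ℓ := mul_nonneg (by positivity) (W_nonneg_aux n r p.1 p.2 hℓ)
    have h5 := Real.cosh_pos (lam * M U p.1 p.2 a ℓ)
    nlinarith
  have hS0 : 0 ≤ S := Finset.sum_nonneg fun p _ => (Real.cosh_pos _).le
  have hH : ∑ p ∈ idx K, Real.cosh (lam * hh U n p.1 p.2 a ℓ) ≤ Real.exp (lam * C) * S := by
    rw [hS, Finset.mul_sum]
    refine Finset.sum_le_sum fun p _ => cosh_add_le ?_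
    rw [← mul_sub, abs_mul, abs_of_nonneg hlam, abs_sub_comm]
    exact mul_le_mul_of_nonneg_left (hMH p.1 p.2) hlam
  have hcn := sum_cn hU n a hℓ lam K
  -- the new level
  set z : ℝ := lam * (n * (1 / 2) ^ K + C) with hz
  have hz0 : 0 ≤ z := by positivity
  have hnew : ∑ i ∈ Finset.range (2 ^ K), Real.cosh (lam' * M U K i a ℓ) ≤
      Real.exp z * ∑ i ∈ Finset.range (2 ^ K), Real.cosh (lam * cn U n K i a ℓ) := by
    rw [Finset.mul_sum]
    refine Finset.sum_le_sum fun i _ => cosh_le_of ?_ hz0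
    rw [abs_mul, abs_mul, abs_of_nonneg h0, abs_of_nonneg hlam]
    have h4 : |M U K i a ℓ| ≤ |cn U n K i a ℓ| + (n * (1 / 2) ^ K + C) := by
      have h5 := hMH K i
      have h6 := hh_le_cn hU n K i a hℓ
      have h7 : |M U K i a ℓ| ≤ |M U K i a ℓ - hh U n K i a ℓ| + |hh U n K i a ℓ| := by
        have := abs_add_le (M U K i a ℓ - hh U n K i a ℓ) (hh U n K i a ℓ)
        rwa [sub_add_cancel] at this
      linarith
    calc lam' * |M U K i a ℓ| ≤ lam * |M U K i a ℓ| := mul_le_mul_of_nonneg_right h1 (abs_nonneg _)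
      _ ≤ lam * (|cn U n K i a ℓ| + (n * (1 / 2) ^ K + C)) := mul_le_mul_of_nonneg_left h4 hlam
      _ = lam * |cn U n K i a ℓ| + z := by rw [hz]; ring
  have hexp : Real.exp (z + lam * C) ≤ 2 := by
    have h4 : z + lam * C ≤ 1 / 2 := by
      rw [hz]
      linarith
    have h5 : Real.exp (1 / 2) ≤ 2 := by
      have h6 : Real.exp (1 / 2) ^ 2 ≤ 2 ^ 2 := by
        rw [← Real.exp_nat_mul]
        have := Real.exp_one_lt_d9
        norm_num
        linarith
      exact le_of_pow_le_pow_left₀ two_ne_zero (by norm_num) h6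
    exact (Real.exp_le_exp.2 h4).trans h5
  have hnew2 : ∑ i ∈ Finset.range (2 ^ K), Real.cosh (lam' * M U K i a ℓ) ≤ 2 + 2 * S := by
    have h4 : Real.exp z * ∑ i ∈ Finset.range (2 ^ K), Real.cosh (lam * cn U n K i a ℓ) ≤
        Real.exp z * (1 + Real.exp (lam * C) * S) := mul_le_mul_of_nonneg_left (by linarith) (Real.exp_pos _).le
    have h5 : Real.exp z * (1 + Real.exp (lam * C) * S) = Real.exp z + Real.exp (z + lam * C) * S := by
      rw [Real.exp_add]
      ring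
    have h6 : Real.exp z ≤ Real.exp (z + lam * C) := Real.exp_le_exp.2 (by
      have : 0 ≤ lam * C := by positivity
      linarith)
    have h7 : Real.exp (z + lam * C) * S ≤ 2 * S := mul_le_mul_of_nonneg_right hexp hS0
    linarith
  have hold : ∑ p ∈ idx K, Real.cosh (lam' * M U p.1 p.2 a ℓ) ≤ S := by
    refine Finset.sum_le_sum fun p _ => Real.cosh_le_cosh.2 ?_
    rw [abs_mul, abs_mul, abs_of_nonneg h0, abs_of_nonneg hlam]
    exact mul_le_mul_of_nonneg_right h1 (abs_nonneg _)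
  have hfac : Pot U n r' (K + 1) lam' a ℓ ≤ ∑ p ∈ idx (K + 1), Real.cosh (lam' * M U p.1 p.2 a ℓ) * 2 := by
    refine Finset.sum_le_sum fun p _ => mul_le_mul_of_nonneg_left ?_ (Real.cosh_pos _).le
    have h4 := W_le_aux hU n r' p.1 p.2 (a := a) hℓ
    have h5 : 4 * lam' ^ 2 * W U n r' p.1 p.2 a ℓ ≤ 4 * lam' ^ 2 * (r' : ℝ) ^ 2 := mul_le_mul_of_nonneg_left h4 (by positivity)
    linarith
  have hsplit : ∑ p ∈ idx (K + 1), Real.cosh (lam' * M U p.1 p.2 a ℓ) =
      (∑ p ∈ idx K, Real.cosh (lam' * M U p.1 p.2 a ℓ)) +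
        ∑ i ∈ Finset.range (2 ^ K), Real.cosh (lam' * M U K i a ℓ) := by
    unfold idx
    rw [Finset.sum_sigma, Finset.sum_range_succ, Finset.sum_sigma]
  rw [← Finset.sum_mul, hsplit] at hfac
  linarith

end Pool.Agent.Helper36.LD3
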